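import Mathlib

/-!
# The `ω₁`-ballean of the symmetric group of `ℕ`
-/

set_option autoImplicit false

namespace Pool.Agent.V11242.EM

open Cardinal Set

/-- `f` is eventually macro-uniform for the `κ`-ballean of `G`: for every `F ⊆ G` of size less
than `κ` there is `B` of size less than `κ` such that the diameters of the sets `f (F x)`, for `x`
outside of `B`, are bounded. -/
def EventuallyMacroUniform (κ : Cardinal.{0}) {G : Type} [Group G] (f : G → ℝ) : Prop :=
  ∀ F : Set G, #F < κ → ∃ B : Set G, #B < κ ∧ ∃ D : ℝ, ∀ x, x ∉ B → ∀ g ∈ F, ∀ h ∈ F,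
    |f (g * x) - f (h * x)| ≤ D

/-- The `κ`-ballean of `G` is emu-bounded. -/
def EmuBounded (κ : Cardinal.{0}) (G : Type) [Group G] : Prop :=
  ∀ f : G → ℝ, EventuallyMacroUniform κ f → ∃ B : Set G, #B < κ ∧ ∃ M : ℝ, ∀ x, x ∉ B → |f x| ≤ M

theorem lt_aleph1_iff {α : Type} {s : Set α} : #s < ℵ₁ ↔ s.Countable := by
  rw [← Cardinal.succ_aleph0, Order.lt_succ_iff, Cardinal.le_aleph0_iff_set_countable]

theorem exists_subset_aleph1 {α : Type} {s : Set α} (hs : ¬ s.Countable) :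
    ∃ t ⊆ s, #t = ℵ₁ := by
  rw [← lt_aleph1_iff, not_lt] at hs
  exact Cardinal.le_mk_iff_exists_subset.mp hs

theorem not_countable_of_mk {α : Type} {s : Set α} (hs : #s = ℵ₁) : ¬ s.Countable := by
  rw [← lt_aleph1_iff, hs]
  exact lt_irrefl _

/-! ### Groups of size `ℵ₁` -/

section small

theorem not_emuBounded_of_card {G : Type} [Group G] (hG : #G = ℵ₁) : ¬ EmuBounded ℵ₁ G := by
  classical
  let Om : Type := (ℵ₁ : Cardinal.{0}).ord.ToType
  have hOm : #Om = ℵ₁ := Cardinal.mk_ord_toType _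
  obtain ⟨e⟩ : Nonempty (Om ≃ G) := Cardinal.eq.mp (hOm.trans hG.symm)
  have hIio : ∀ a : Om, (Set.Iio a).Countable := by
    intro a
    have h : #(Set.Iio a) < ℵ₁ := by
      have h1 := Cardinal.mk_Iio_lt (α := Om) a (by rw [hOm]; exact (Ordinal.type_toType _).symm)
      rwa [hOm] at h1
    exact lt_aleph1_iff.mp h
  let H : Om → Subgroup G := fun a => Subgroup.closure (e '' Set.Iio a)
  have hHc : ∀ a, (H a : Set G).Countable := by
    intro a
    have h1 : (e '' Set.Iio a).Countable := (hIio a).image e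
    have := h1.to_subtype
    have h2 : (H a : Set G) = Set.range (FreeGroup.lift ((↑) : (e '' Set.Iio a) → G)) := by
      rw [← MonoidHom.coe_range, ← FreeGroup.closure_eq_range]
    rw [h2]
    exact Set.countable_range _
  have hHmono : ∀ a b, a ≤ b → (H a : Set G) ⊆ H b := by
    intro a b hab
    exact Subgroup.closure_mono (image_mono (Set.Iio_subset_Iio hab))
  have hnomax : ∀ a : Om, ∃ b, a < b := by
    intro a
    by_contra hcon
    push Not at hcon
    have h1 : (Set.univ : Set Om) ⊆ insert a (Set.Iio a) := by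
      intro b _
      rcases lt_or_eq_of_le (hcon b) with h | h
      · exact Or.inr h
      · exact Or.inl h
    have h2 : (Set.univ : Set Om).Countable := ((hIio a).insert a).mono h1
    have h3 := lt_aleph1_iff.mpr h2
    rw [Cardinal.mk_univ, hOm] at h3
    exact lt_irrefl _ h3
  have hcover : ∀ x : G, ∃ a, x ∈ H a := by
    intro x
    obtain ⟨b, hb⟩ := hnomax (e.symm x)
    exact ⟨b, Subgroup.subset_closure ⟨e.symm x, hb, by simp⟩⟩
  let ρ : G → Om := fun x => WellFounded.min (wellFounded_lt (α := Om)) {a | x ∈ H a} (hcover x)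
  have hρ1 : ∀ x, x ∈ H (ρ x) := fun x =>
    WellFounded.min_mem (wellFounded_lt (α := Om)) {a | x ∈ H a} (hcover x)
  have hρ2 : ∀ x a, x ∈ H a → ρ x ≤ a := fun x a ha =>
    not_lt.mp (WellFounded.not_lt_min (wellFounded_lt (α := Om)) {a | x ∈ H a} ha)
  have hinv : ∀ b, ∀ g ∈ H b, ∀ x, x ∉ H b → ρ (g * x) = ρ x := by
    intro b g hg x hx
    have h1 : ∀ y : G, y ∉ H b → ∀ a, y ∈ H a → b ≤ a := by
      intro y hy a ha
      by_contra hcon
      exact hy (hHmono a b (not_le.mp hcon).le ha)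
    have hgx : g * x ∉ H b := by
      intro h
      apply hx
      have := (H b).mul_mem ((H b).inv_mem hg) h
      rwa [inv_mul_cancel_left] at this
    apply le_antisymm
    · apply hρ2
      exact (H (ρ x)).mul_mem (hHmono _ _ (h1 x hx _ (hρ1 x)) hg) (hρ1 x)
    · apply hρ2
      have h2 := (H (ρ (g * x))).mul_mem
        ((H (ρ (g * x))).inv_mem (hHmono _ _ (h1 _ hgx _ (hρ1 _)) hg)) (hρ1 (g * x))
      rwa [inv_mul_cancel_left] at h2
  -- the set of ranks is uncountable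
  let R : Set Om := range ρ
  have hR : ¬ R.Countable := by
    intro hR
    have h1 : (Set.univ : Set G) ⊆ ⋃ a ∈ R, (H a : Set G) := fun x _ =>
      mem_biUnion ⟨x, rfl⟩ (hρ1 x)
    have h2 := (hR.biUnion fun a _ => hHc a).mono h1
    have h3 := lt_aleph1_iff.mpr h2
    rw [Cardinal.mk_univ, hG] at h3
    exact lt_irrefl _ h3
  have hRcard : #R = ℵ₁ := by
    refine le_antisymm ((Cardinal.mk_set_le R).trans hOm.le) ?_
    rw [← lt_aleph1_iff, not_lt] at hR
    exact hR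
  obtain ⟨φ⟩ : Nonempty (R ≃ R × ℕ) := by
    apply Cardinal.eq.mp
    rw [Cardinal.mk_prod, Cardinal.lift_id, Cardinal.lift_id, hRcard, Cardinal.mk_nat,
      Cardinal.mul_aleph0_eq (Cardinal.aleph0_le_aleph 1)]
  let f : G → ℝ := fun x => ((φ ⟨ρ x, x, rfl⟩).2 : ℝ)
  have hfinv : ∀ x y, ρ x = ρ y → f x = f y := by
    intro x y h
    simp only [f]
    congr 3
    exact Subtype.ext h
  intro hE
  obtain ⟨B, hB, M, hM⟩ := hE f (by
    intro F hF
    rw [lt_aleph1_iff] at hF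
    -- a bound for `F`
    obtain ⟨b, hb⟩ : ∃ b, F ⊆ H b := by
      by_contra hcon
      have h1 : (⋃ x ∈ F, Set.Iic (ρ x)) = Set.univ := by
        rw [Set.eq_univ_iff_forall]
        intro b
        have h2 : ¬ F ⊆ H b := fun h => hcon ⟨b, h⟩
        obtain ⟨x, hxF, hxb⟩ := not_subset.mp h2
        refine mem_biUnion hxF ?_
        by_contra h3
        exact hxb (hHmono _ _ (not_le.mp h3).le (hρ1 x))
      have h2 : (Set.univ : Set Om).Countable := by
        rw [← h1]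
        refine hF.biUnion fun x _ => ?_
        have : Set.Iic (ρ x) ⊆ insert (ρ x) (Set.Iio (ρ x)) := by
          intro b hb
          rcases lt_or_eq_of_le (show b ≤ ρ x from hb) with h | h
          · exact Or.inr h
          · exact Or.inl h
        exact ((hIio _).insert _).mono this
      have h3 := lt_aleph1_iff.mpr h2
      rw [Cardinal.mk_univ, hOm] at h3
      exact lt_irrefl _ h3
    refine ⟨H b, lt_aleph1_iff.mpr (hHc b), 0, fun x hx g hg h hh => ?_⟩
    rw [hfinv (g * x) (h * x) ((hinv b g (hb hg) x hx).trans (hinv b h (hb hh) x hx).symm)]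
    simp)
  rw [lt_aleph1_iff] at hB
  -- uncountably many points with a large value
  obtain ⟨n, hn⟩ := exists_nat_gt M
  have h1 : ∀ r : R, ∃ x : G, ρ x = (φ.symm (r, n)).1 := fun r => (φ.symm (r, n)).2
  choose x hx using h1
  have hfx : ∀ r, f (x r) = n := by
    intro r
    simp only [f]
    have : (⟨ρ (x r), x r, rfl⟩ : R) = φ.symm (r, n) := Subtype.ext (hx r)
    rw [this, Equiv.apply_symm_apply]
  have hxinj : Function.Injective x := by
    intro r r' h
    have h2 : φ.symm (r, n) = φ.symm (r', n) := by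
      apply Subtype.ext
      rw [← hx r, ← hx r', h]
    have h3 := φ.symm.injective h2
    exact (Prod.mk.injEq _ _ _ _ ▸ h3).1
  have h2 : range x ⊆ B := by
    rintro _ ⟨r, rfl⟩
    by_contra hcon
    have := hM _ hcon
    rw [hfx, abs_of_nonneg (by positivity)] at this
    linarith
  have h3 : (range x).Countable := hB.mono h2
  have h4 := lt_aleph1_iff.mpr h3
  rw [Cardinal.mk_range_eq x hxinj, hRcard] at h4
  exact lt_irrefl _ h4

end small

/-! ### The symmetric group when the continuum hypothesis fails -/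

section big

/-- Left translations change `f` by at most `D` outside of a countable set. -/
def PD {G : Type} [Group G] (f : G → ℝ) (D : ℝ) : Prop :=
  ∀ g : G, ∃ B : Set G, B.Countable ∧ ∀ x, x ∉ B → |f (g * x) - f x| ≤ D

theorem exists_PD {G : Type} [Group G] {f : G → ℝ} (hf : EventuallyMacroUniform ℵ₁ f) :
    ∃ D, PD f D := by
  by_contra hcon
  have h1 : ∀ n : ℕ, ∃ g : G, ∀ B : Set G, B.Countable → ∃ x, x ∉ B ∧ (n : ℝ) < |f (g * x) - f x| := by
    intro n
    by_contra h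
    apply hcon
    refine ⟨n, fun g => ?_⟩
    by_contra h2
    apply h
    refine ⟨g, fun B hB => ?_⟩
    by_contra h3
    apply h2
    refine ⟨B, hB, fun x hx => ?_⟩
    by_contra h4
    exact h3 ⟨x, hx, not_le.mp h4⟩
  choose g hg using h1
  obtain ⟨B, hB, D, hD⟩ := hf (insert 1 (range g))
    (lt_aleph1_iff.mpr ((countable_range g).insert 1))
  obtain ⟨n, hn⟩ := exists_nat_gt D
  obtain ⟨x, hx, h2⟩ := hg n B (lt_aleph1_iff.mp hB)
  have h3 := hD x hx (g n) (Or.inr ⟨n, rfl⟩) 1 (Or.inl rfl)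
  rw [one_mul] at h3
  linarith

/-- Permutations supported on `S`. -/
def LL (S : Set ℕ) : Set (Equiv.Perm ℕ) := {x | ∀ n, n ∉ S → x n = n}

theorem LL_card {S : Set ℕ} (hS : S.Infinite) : 𝔠 ≤ #(LL S) := by
  classical
  have := hS.to_subtype
  have h1 : #(Equiv.Perm S) = 𝔠 := by
    rw [Cardinal.mk_perm_eq_two_power, Cardinal.mk_eq_aleph0, Cardinal.two_power_aleph0]
  rw [← h1]
  refine Cardinal.mk_le_of_injective (f := fun x : Equiv.Perm S =>
    (⟨Equiv.Perm.ofSubtype (p := (· ∈ S)) x, fun n hn =>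
      Equiv.Perm.ofSubtype_apply_of_not_mem x hn⟩ : LL S)) ?_
  intro x y h
  exact Equiv.Perm.ofSubtype_injective (congrArg Subtype.val h)

theorem LL_comm {S : Set ℕ} {x z : Equiv.Perm ℕ} (hx : x ∈ LL S) (hz : z ∈ LL Sᶜ) :
    x * z = z * x := by
  refine (Equiv.Perm.Disjoint.commute fun n => ?_)
  by_cases hn : n ∈ S
  · exact Or.inr (hz n (fun h => h hn))
  · exact Or.inl (hx n hn)

theorem exists_avoid {α : Type} {T : Set α} (hT : ℵ₁ < #T) {K : Type} (hK : #K ≤ ℵ₁)
    (B : K → Set α) (hB : ∀ k, (B k).Countable) : ∃ z ∈ T, ∀ k, z ∉ B k := by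
  by_contra hcon
  push Not at hcon
  have h1 : T ⊆ ⋃ k, B k := fun z hz => mem_iUnion.mpr (hcon z hz)
  have h2 : #(⋃ k, B k) ≤ ℵ₁ := by
    refine (mk_iUnion_le _).trans ?_
    calc #K * (⨆ k, #(B k)) ≤ ℵ₁ * ℵ₁ := by
          refine mul_le_mul' hK (ciSup_le' fun k => ?_)
          exact (Cardinal.le_aleph0_iff_set_countable.mpr (hB k)).trans
            (Cardinal.aleph0_le_aleph 1)
      _ = ℵ₁ := Cardinal.mul_eq_self (Cardinal.aleph0_le_aleph 1)
  exact absurd ((mk_le_mk_of_subset h1).trans h2) (not_le.mpr hT)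

variable {f : Equiv.Perm ℕ → ℝ} {D : ℝ}

theorem lemma1 (hCH : (ℵ₁ : Cardinal.{0}) < 𝔠) (hf : PD f D) {S : Set ℕ} (hS : Sᶜ.Infinite)
    {K : Set (Equiv.Perm ℕ)} (hKS : K ⊆ LL S) (hK : #K ≤ ℵ₁) :
    ∃ c, {k ∈ K | 2 * D < |f k - c|}.Countable := by
  choose B hBc hB using hf
  obtain ⟨z, hz, hzB⟩ := exists_avoid (T := LL Sᶜ) (hCH.trans_le (LL_card hS)) (K := K) hK
    (fun k => B k.1) (fun k => hBc _)
  refine ⟨f z, (hBc z).mono ?_⟩
  rintro k ⟨hk, hk'⟩
  by_contra hcon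
  have h1 := hB k z (hzB ⟨k, hk⟩)
  have h2 := hB z k hcon
  rw [← LL_comm (hKS hk) hz] at h2
  rw [abs_le] at h1 h2
  have h3 : |f k - f z| ≤ 2 * D := by
    rw [abs_le]
    constructor <;> linarith [h1.1, h1.2, h2.1, h2.2]
  linarith

theorem exists_mem_of_uncountable {α : Type} {K A : Set α} (hK : ¬ K.Countable)
    (hA : A.Countable) : ∃ k ∈ K, k ∉ A := by
  by_contra hcon
  push Not at hcon
  exact hK (hA.mono hcon)

theorem lemma1' (hCH : (ℵ₁ : Cardinal.{0}) < 𝔠) (hf : PD f D) {S : Set ℕ} (hS : S.Infinite)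
    (hS' : Sᶜ.Infinite) : ∃ c, {k ∈ LL S | 6 * D < |f k - c|}.Countable := by
  obtain ⟨K₀, hK₀, hK₀c⟩ := exists_subset_aleph1 (s := LL S) (by
    rw [← lt_aleph1_iff, not_lt]
    exact hCH.le.trans (LL_card hS))
  obtain ⟨c₀, hc₀⟩ := lemma1 hCH hf hS' hK₀ hK₀c.le
  refine ⟨c₀, ?_⟩
  by_contra hcon
  obtain ⟨K₁, hK₁, hK₁c⟩ := exists_subset_aleph1 hcon
  obtain ⟨c₁, hc₁⟩ := lemma1 hCH hf hS' (K := K₀ ∪ K₁)
    (union_subset hK₀ fun k hk => (hK₁ hk).1) (by
      refine (mk_union_le _ _).trans ?_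
      rw [hK₀c, hK₁c, Cardinal.add_eq_self (Cardinal.aleph0_le_aleph 1)])
  obtain ⟨k, hk, hk'⟩ := exists_mem_of_uncountable (not_countable_of_mk hK₀c) (hc₀.union hc₁)
  obtain ⟨l, hl, hl'⟩ := exists_mem_of_uncountable (not_countable_of_mk hK₁c) hc₁
  have h1 : |f k - c₀| ≤ 2 * D := by
    by_contra h
    exact hk' (Or.inl ⟨hk, not_le.mp h⟩)
  have h2 : |f k - c₁| ≤ 2 * D := by
    by_contra h
    exact hk' (Or.inr ⟨Or.inl hk, not_le.mp h⟩)
  have h3 : |f l - c₁| ≤ 2 * D := by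
    by_contra h
    exact hl' ⟨Or.inr hl, not_le.mp h⟩
  have h4 := (hK₁ hl).2
  have h5 : |f l - c₀| ≤ 6 * D := by
    rw [abs_le] at h1 h2 h3 ⊢
    constructor <;> linarith [h1.1, h1.2, h2.1, h2.2, h3.1, h3.2]
  linarith

theorem LL_not_countable {S : Set ℕ} (hS : S.Infinite) : ¬ (LL S).Countable := by
  rw [← lt_aleph1_iff, not_lt]
  exact Cardinal.aleph_one_le_continuum.trans (LL_card hS)

theorem lemma2 {S S' : Set ℕ} (hSS : (S ∩ S').Infinite) {c c' : ℝ}
    (hc : {k ∈ LL S | 6 * D < |f k - c|}.Countable)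
    (hc' : {k ∈ LL S' | 6 * D < |f k - c'|}.Countable) : |c - c'| ≤ 12 * D := by
  obtain ⟨k, hk, hk'⟩ := exists_mem_of_uncountable (LL_not_countable hSS) (hc.union hc')
  have h1 : |f k - c| ≤ 6 * D := by
    by_contra h
    exact hk' (Or.inl ⟨fun n hn => hk n fun h => hn h.1, not_le.mp h⟩)
  have h2 : |f k - c'| ≤ 6 * D := by
    by_contra h
    exact hk' (Or.inr ⟨fun n hn => hk n fun h => hn h.2, not_le.mp h⟩)
  rw [abs_le] at h1 h2 ⊢
  constructor <;> linarith [h1.1, h1.2, h2.1, h2.2]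

theorem exists_split {T : Set ℕ} (hT : T.Infinite) : ∃ T' ⊆ T, T'.Infinite ∧ (T \ T').Infinite := by
  let f := hT.natEmbedding
  refine ⟨range fun n => (f (2 * n)).1, ?_, ?_, ?_⟩
  · rintro _ ⟨n, rfl⟩
    exact (f (2 * n)).2
  · refine infinite_range_of_injective fun a b h => ?_
    have := f.injective (Subtype.ext h)
    omega
  · have h1 : (range fun n => (f (2 * n + 1)).1).Infinite := by
      refine infinite_range_of_injective fun a b h => ?_
      have := f.injective (Subtype.ext h)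
      omega
    refine h1.mono ?_
    rintro _ ⟨n, rfl⟩
    refine ⟨(f (2 * n + 1)).2, ?_⟩
    rintro ⟨m, hm⟩
    have := f.injective (Subtype.ext hm)
    omega

theorem lemma3 (hCH : (ℵ₁ : Cardinal.{0}) < 𝔠) (hf : PD f D) (hD : 0 ≤ D) {S S' : Set ℕ}
    (hS : S.Infinite) (hS' : S'.Infinite) {c c' : ℝ}
    (hc : {k ∈ LL S | 6 * D < |f k - c|}.Countable)
    (hc' : {k ∈ LL S' | 6 * D < |f k - c'|}.Countable) : |c - c'| ≤ 24 * D := by
  by_cases hSS : (S ∩ S').Infinite
  · linarith [lemma2 hSS hc hc']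
  · obtain ⟨T, hTS, hT, hT'⟩ := exists_split hS
    rw [Set.not_infinite] at hSS
    have h1 : ((T ∪ S') : Set ℕ)ᶜ.Infinite := by
      refine (hT'.sdiff hSS).mono ?_
      rintro n ⟨⟨h1, h2⟩, h3⟩ (h4 | h4)
      · exact h2 h4
      · exact h3 ⟨h1, h4⟩
    obtain ⟨c'', hc''⟩ := lemma1' hCH hf (S := T ∪ S') (hT.mono subset_union_left) h1
    have h2 := lemma2 (S := S) (S' := T ∪ S') (hT.mono fun n hn => ⟨hTS hn, Or.inl hn⟩) hc hc''
    have h3 := lemma2 (S := T ∪ S') (S' := S') (hS'.mono fun n hn => ⟨Or.inr hn, hn⟩) hc'' hc'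
    rw [abs_le] at h2 h3 ⊢
    constructor <;> linarith [h2.1, h2.2, h3.1, h3.2]

theorem lemma4 (hCH : (ℵ₁ : Cardinal.{0}) < 𝔠) (hf : PD f D) (hD : 0 ≤ D) {S : Set ℕ}
    (hS : S.Infinite) (hS' : Sᶜ.Infinite) {c : ℝ}
    (hc : {k ∈ LL S | 6 * D < |f k - c|}.Countable) (k : Equiv.Perm ℕ) :
    {z ∈ LL S | 31 * D < |f (z * k) - c|}.Countable := by
  have h1 : (k ⁻¹' S).Infinite := by
    have : k ⁻¹' S = k.symm '' S := by
      rw [Equiv.image_symm_eq_preimage]
    rw [this]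
    exact hS.image k.symm.injective.injOn
  have h2 : ((k ⁻¹' S) : Set ℕ)ᶜ.Infinite := by
    have : (k ⁻¹' S)ᶜ = k.symm '' Sᶜ := by
      rw [Equiv.image_symm_eq_preimage]
      rfl
    rw [this]
    exact hS'.image k.symm.injective.injOn
  obtain ⟨c', hc'⟩ := lemma1' hCH hf h1 h2
  have h3 := lemma3 hCH hf hD hS h1 hc hc'
  obtain ⟨B, hB, hB'⟩ := hf k
  have h4 : ((fun z => k⁻¹ * z * k) ⁻¹' (B ∪ {y ∈ LL (k ⁻¹' S) | 6 * D < |f y - c'|})).Countable := by
    refine (hB.union hc').preimage_of_injOn ?_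
    intro x _ y _ h
    simpa using h
  refine h4.mono ?_
  rintro z ⟨hz, hz'⟩
  by_contra hcon
  have h5 : k⁻¹ * z * k ∉ B := fun h => hcon (Or.inl h)
  have h6 : k⁻¹ * z * k ∈ LL (k ⁻¹' S) := by
    intro n hn
    have h7 : z (k n) = k n := hz (k n) hn
    simp [Equiv.Perm.mul_apply, h7]
  have h7 : |f (k⁻¹ * z * k) - c'| ≤ 6 * D := by
    by_contra h
    exact hcon (Or.inr ⟨h6, not_le.mp h⟩)
  have h8 := hB' _ h5
  have h9 : k * (k⁻¹ * z * k) = z * k := by group
  rw [h9] at h8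
  rw [abs_le] at h3 h7 h8
  have h10 : |f (z * k) - c| ≤ 31 * D := by
    rw [abs_le]
    constructor <;> linarith [h3.1, h3.2, h7.1, h7.2, h8.1, h8.2]
  linarith

theorem emuBounded_of_not_ch (hCH : (ℵ₁ : Cardinal.{0}) < 𝔠) :
    EmuBounded ℵ₁ (Equiv.Perm ℕ) := by
  intro f hf
  obtain ⟨D, hfD⟩ := exists_PD hf
  have hD : 0 ≤ D := by
    obtain ⟨B, hB, hB'⟩ := hfD 1
    obtain ⟨x, _, hx⟩ := exists_mem_of_uncountable (LL_not_countable Set.infinite_univ) hB
    exact (abs_nonneg _).trans (hB' x hx)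
  have hS : ({n | Even n} : Set ℕ).Infinite := by
    refine (infinite_range_of_injective (f := fun n : ℕ => 2 * n) fun a b h => ?_).mono ?_
    · simp only at h; omega
    · rintro _ ⟨n, rfl⟩; exact even_two_mul n
  have hS' : ({n | Even n} : Set ℕ)ᶜ.Infinite := by
    refine (infinite_range_of_injective (f := fun n : ℕ => 2 * n + 1) fun a b h => ?_).mono ?_
    · simp only at h; omega
    · rintro _ ⟨n, rfl⟩
      intro h
      have h' : Even (2 * n + 1) := h
      rw [Nat.even_iff] at h'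
      omega
  obtain ⟨c, hc⟩ := lemma1' hCH hfD hS hS'
  refine ⟨{x | |c| + 32 * D < |f x|}, ?_, |c| + 32 * D, fun x hx => not_lt.mp hx⟩
  rw [lt_aleph1_iff]
  by_contra hcon
  obtain ⟨K, hK, hKc⟩ := exists_subset_aleph1 hcon
  obtain ⟨z, hz, hzK⟩ := exists_avoid (T := LL {n | Even n}) (hCH.trans_le (LL_card hS))
    (K := K) hKc.le (fun k => {z ∈ LL {n | Even n} | 31 * D < |f (z * k.1) - c|})
    (fun k => lemma4 hCH hfD hD hS hS' hc k.1)
  obtain ⟨B, hB, hB'⟩ := hfD z
  obtain ⟨k, hk, hkB⟩ := exists_mem_of_uncountable (not_countable_of_mk hKc) hB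
  have h1 := hB' k hkB
  have h2 : |f (z * k) - c| ≤ 31 * D := by
    by_contra h
    exact hzK ⟨k, hk⟩ ⟨hz, not_le.mp h⟩
  have h3 : |c| + 32 * D < |f k| := hK hk
  have h4 : |f k| ≤ |f (z * k) - f k| + |f (z * k) - c| + |c| := by
    have h5 : f k = -(f (z * k) - f k) + (f (z * k) - c) + c := by ring
    calc |f k| = |-(f (z * k) - f k) + (f (z * k) - c) + c| := by rw [← h5]
      _ ≤ |-(f (z * k) - f k) + (f (z * k) - c)| + |c| := abs_add_le _ _
      _ ≤ |-(f (z * k) - f k)| + |f (z * k) - c| + |c| := by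
          gcongr
          exact abs_add_le _ _
      _ = _ := by rw [abs_neg]
  linarith

end big

/-- The `ω₁`-ballean of the symmetric group is emu-bounded exactly when the continuum hypothesis
fails. -/
theorem emuBounded_iff : EmuBounded ℵ₁ (Equiv.Perm ℕ) ↔ (𝔠 : Cardinal.{0}) ≠ ℵ₁ := by
  constructor
  · intro h hCH
    refine not_emuBounded_of_card ?_ h
    rw [Cardinal.mk_perm_eq_two_power, Cardinal.mk_nat, Cardinal.two_power_aleph0, hCH]
  · intro h
    exact emuBounded_of_not_ch (lt_of_le_of_ne Cardinal.aleph_one_le_continuum h.symm)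

end Pool.Agent.V11242.EM
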